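import Mathlib

/-!
# MP_01c350_lc

Cohen forcings of two non-trivial strong Fraisse classes need not be forcing equivalent: if
`|X| ≥ ℵ₂`, then the Cohen forcing of the class of finite triangle-free graphs is not forcing
equivalent to ordinary Cohen forcing on `X`.
-/

set_option autoImplicit false

namespace Pool.Agent.Results.MP_01c350_lc.TriangleFreeNotCohen

open Cardinal FirstOrder FirstOrder.Language CategoryTheory

/-! ### Regular open sets and forcing equivalence -/

/-- The Boolean completion `RO(P)` of a forcing notion `P`: the regular open subsets of `P`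
(for the topology whose open sets are the downward closed sets), ordered by inclusion. A set `U`
is regular open iff a condition `p` belongs to `U` exactly when `U` is dense below `p`. -/
def RO (P : Type) [Preorder P] : Type :=
  {U : Set P // ∀ p, p ∈ U ↔ ∀ q ≤ p, ∃ r ≤ q, r ∈ U}

instance (P : Type) [Preorder P] : PartialOrder (RO P) :=
  inferInstanceAs (PartialOrder {U : Set P // ∀ p, p ∈ U ↔ ∀ q ≤ p, ∃ r ≤ q, r ∈ U})

/-- `P` and `Q` are forcing equivalent: their Boolean completions are isomorphic. -/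
def ForcingEquivalent (P Q : Type) [Preorder P] [Preorder Q] : Prop :=
  Nonempty (RO P ≃o RO Q)

/-! ### Strong Fraisse classes -/

section Classes

variable {L : FirstOrder.Language.{0, 0}}

/-- `K` is a strong Fraisse class of finite `L`-structures: closed under isomorphism and
substructures, with joint embedding and with strong (disjoint) amalgamation. -/
structure IsStrongFraisse (K : Set (Bundled.{0} L.Structure)) : Prop where
  nonempty : K.Nonempty
  finite : ∀ A ∈ K, Finite A
  hereditary : ∀ A B : Bundled.{0} L.Structure, B ∈ K → Nonempty (A ↪[L] B) → A ∈ K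
  jointEmbedding : ∀ A ∈ K, ∀ B ∈ K, ∃ C ∈ K, Nonempty (A ↪[L] C) ∧ Nonempty (B ↪[L] C)
  strongAmalgamation : ∀ A ∈ K, ∀ B ∈ K, ∀ C ∈ K, ∀ (f : A ↪[L] B) (g : A ↪[L] C),
    ∃ D ∈ K, ∃ (f' : B ↪[L] D) (g' : C ↪[L] D), (∀ a, f' (f a) = g' (g a)) ∧
      ∀ b c, f' b = g' c → ∃ a, f a = b ∧ g a = c

/-- An `L`-literal in the variables `x_0, …, x_{n-1}`: an atomic formula or the negation of
one. -/
def IsLiteral {n : ℕ} (ψ : L.Formula (Fin n)) : Prop :=
  BoundedFormula.IsAtomic ψ ∨ ∃ χ : L.Formula (Fin n), BoundedFormula.IsAtomic χ ∧ ψ = χ.not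

/-- `K` is trivial: every literal has constant truth value on all non-redundant tuples of
members of `K`. -/
def IsTrivialClass (K : Set (Bundled.{0} L.Structure)) : Prop :=
  ∀ (n : ℕ) (ψ : L.Formula (Fin n)), IsLiteral ψ →
    (∀ A ∈ K, ∀ x : Fin n → A, Function.Injective x → ψ.Realize x) ∨
    (∀ A ∈ K, ∀ x : Fin n → A, Function.Injective x → ¬ ψ.Realize x)

/-- `K` has at most `κ` isomorphism types. -/
def AtMostTypes (K : Set (Bundled.{0} L.Structure)) (κ : Cardinal.{0}) : Prop :=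
  ∃ (I : Type) (T : I → Bundled.{0} L.Structure), #I ≤ κ ∧
    ∀ A ∈ K, ∃ i, Nonempty (A ≃[L] T i)

/-- The conditions of the Cohen forcing `Cohen_X(K)`: the structures in `K` whose underlying set
is a finite subset of `X`. -/
structure Cohen (X : Type) (K : Set (Bundled.{0} L.Structure)) : Type where
  dom : Finset X
  str : L.Structure dom
  mem : Bundled.mk (dom : Type) str ∈ K

/-- The truth value in the condition `p` of the relation `R` at a tuple of elements of the
domain of `p`. -/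
def Cohen.rel {X : Type} {K : Set (Bundled.{0} L.Structure)} (p : Cohen X K) {n : ℕ}
    (R : L.Relations n) (t : Fin n → p.dom) : Prop :=
  @Structure.RelMap L p.dom p.str n R t

/-- `p` is stronger than `q` when `q` is a substructure of `p`. -/
instance {X : Type} {K : Set (Bundled.{0} L.Structure)} : Preorder (Cohen X K) where
  le p q := ∃ h : q.dom ⊆ p.dom, ∀ (n : ℕ) (R : L.Relations n) (t : Fin n → q.dom),
    p.rel R (fun i => ⟨(t i : X), h (t i).2⟩) ↔ q.rel R t
  le_refl p := ⟨Finset.Subset.refl _, fun n R t => Iff.rfl⟩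
  le_trans p q r h1 h2 := by
    obtain ⟨h1, h1'⟩ := h1
    obtain ⟨h2, h2'⟩ := h2
    exact ⟨h2.trans h1, fun n R t => (h1' n R _).trans (h2' n R t)⟩

end Classes

/-! ### The two classes -/

/-- The relation symbols of the language with one unary relation symbol. -/
inductive UnaryRel : ℕ → Type
  | U : UnaryRel 1

/-- The language with one unary relation symbol. -/
def unary : FirstOrder.Language.{0, 0} := ⟨fun _ => Empty, UnaryRel⟩

instance : unary.IsRelational := fun _ => inferInstanceAs (IsEmpty Empty)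

/-- The class of all finite structures in the language with one unary relation symbol; its Cohen
forcing is ordinary Cohen forcing, adding a function `X → {0, 1}`. -/
def KUnary : Set (Bundled.{0} unary.Structure) := {A | Finite A}

/-- The class of finite triangle-free graphs. -/
def KTriangleFree : Set (Bundled.{0} FirstOrder.Language.graph.Structure) :=
  {A | Finite A ∧ (∀ a : A, ¬ Structure.RelMap adj ![a, a]) ∧
    (∀ a b : A, Structure.RelMap adj ![a, b] → Structure.RelMap adj ![b, a]) ∧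
    ∀ a b c : A, Structure.RelMap adj ![a, b] → Structure.RelMap adj ![b, c] →
      ¬ Structure.RelMap adj ![a, c]}

/-! ### Forcing notions of finite structures: supports -/

/-- Abstract properties of the forcing notions `Cohen_X(K)`. -/
structure Supp (P X : Type) [Preorder P] where
  dom : P → Set X
  fin : ∀ p, (dom p).Finite
  res : Set X → P → P
  res_dom : ∀ Y p, dom (res Y p) ⊆ Y
  le_res : ∀ Y p, p ≤ res Y p
  res_le : ∀ {Y : Set X} {p q : P}, q ≤ p → dom p ⊆ Y → res Y q ≤ p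
  amalg : ∀ (Y : Set X) (q r : P), dom r ⊆ Y → r ≤ res Y q → ∃ s, s ≤ r ∧ s ≤ q
  count : ∀ Y : Set X, Y.Countable → {p | dom p ⊆ Y}.Countable

section Abstract

variable {P X : Type} [Preorder P]

theorem RO.down (U : RO P) {p q : P} (hp : p ∈ U.1) (hqp : q ≤ p) : q ∈ U.1 :=
  (U.2 q).2 fun r hr => (U.2 p).1 hp r (hr.trans hqp)

/-- The regular open set generated by a condition. -/
def RO.gen (p : P) : RO P :=
  ⟨{q | ∀ r ≤ q, ∃ s ≤ r, s ≤ p}, by
    intro q
    constructor
    · intro hq r hr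
      exact ⟨r, le_rfl, fun t ht => hq t (ht.trans hr)⟩
    · intro hq r hr
      obtain ⟨s, hs, hs'⟩ := hq r hr
      obtain ⟨t, ht, ht'⟩ := hs' s le_rfl
      exact ⟨t, ht.trans hs, ht'⟩⟩

theorem RO.mem_gen {p q : P} (h : q ≤ p) : q ∈ (RO.gen p).1 :=
  fun r hr => ⟨r, le_rfl, hr.trans h⟩

theorem RO.gen_le {p : P} {U : RO P} (h : p ∈ U.1) : RO.gen p ≤ U := by
  intro q hq
  refine (U.2 q).2 fun r hr => ?_
  obtain ⟨s, hs, hs'⟩ := hq r hr
  exact ⟨s, hs, U.down h hs'⟩

/-- The pseudocomplement of a regular open set. -/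
def RO.neg (U : RO P) : RO P :=
  ⟨{q | ∀ r ≤ q, r ∉ U.1}, by
    intro q
    constructor
    · intro hq r hr
      exact ⟨r, le_rfl, fun t ht => hq t (ht.trans hr)⟩
    · intro hq r hr hrU
      obtain ⟨s, hs, hs'⟩ := hq r hr
      exact hs' s le_rfl (U.down hrU hs)⟩

/-- The set `Y` supports the regular open set `U`. -/
def Supports (S : Supp P X) (Y : Set X) (U : RO P) : Prop :=
  ∀ p ∈ U.1, S.res Y p ∈ U.1

theorem Supports.mono {S : Supp P X} {Y Z : Set X} {U : RO P} (h : Supports S Z U)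
    (hZY : Z ⊆ Y) : Supports S Y U := fun p hp =>
  U.down (h p hp) (S.res_le (S.le_res Z p) ((S.res_dom Z p).trans hZY))

/-- Closing off a countable set under a countable-valued function on a countable-to-one set of
finite data. -/
theorem exists_closed {Q : Type} (dom : Q → Set X) (hfin : ∀ p, (dom p).Finite)
    (hcount : ∀ Y : Set X, Y.Countable → {p | dom p ⊆ Y}.Countable)
    (f : Q → Set X) (hf : ∀ p, (f p).Countable) (Z : Set X) (hZ : Z.Countable) :
    ∃ Y : Set X, Y.Countable ∧ Z ⊆ Y ∧ ∀ p, dom p ⊆ Y → f p ⊆ Y := by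
  let step : Set X → Set X := fun W => W ∪ ⋃ p ∈ {p | dom p ⊆ W}, f p
  let C : ℕ → Set X := fun n => step^[n] Z
  have hC0 : C 0 = Z := rfl
  have hCs : ∀ n, C (n + 1) = step (C n) := fun n => Function.iterate_succ_apply' step n Z
  have hcnt : ∀ n, (C n).Countable := by
    intro n
    induction n with
    | zero => exact hZ
    | succ n ih =>
      rw [hCs]
      exact ih.union ((hcount _ ih).biUnion fun p _ => hf p)
  have hmono : Monotone C := by
    refine monotone_nat_of_le_succ fun n => ?_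
    rw [hCs]
    exact Set.subset_union_left
  refine ⟨⋃ n, C n, Set.countable_iUnion hcnt, ?_, ?_⟩
  · rw [← hC0]
    exact Set.subset_iUnion C 0
  · intro p hp
    have hd : Directed (· ⊆ ·) C := hmono.directed_le
    obtain ⟨n, hn⟩ : ∃ n, dom p ⊆ C n := by
      have := hd.exists_mem_subset_of_finset_subset_biUnion (s := (hfin p).toFinset)
        (by simpa using hp)
      simpa using this
    refine Set.Subset.trans ?_ (Set.subset_iUnion C (n + 1))
    rw [hCs]
    refine Set.Subset.trans ?_ Set.subset_union_right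
    exact Set.subset_biUnion_of_mem (u := f) (show p ∈ {p | dom p ⊆ C n} from hn)

/-- Every regular open set has a countable support. -/
theorem exists_support (S : Supp P X) (U : RO P) :
    ∃ Y : Set X, Y.Countable ∧ Supports S Y U := by
  classical
  let f : RO P → P → Set X := fun W p =>
    if h : ∃ q ≤ p, q ∈ W.1 then S.dom (Classical.choose h) else ∅
  have hf : ∀ W p, (f W p).Countable := by
    intro W p
    by_cases h : ∃ q ≤ p, q ∈ W.1
    · simp only [f, dif_pos h]
      exact (S.fin _).countable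
    · simp only [f, dif_neg h]
      exact Set.countable_empty
  obtain ⟨Y, hY, -, hcl⟩ := exists_closed S.dom S.fin S.count (f (RO.neg U)) (hf _) ∅
    Set.countable_empty
  refine ⟨Y, hY, fun p hp => ?_⟩
  refine (U.2 _).2 fun r hr => ?_
  by_contra hcon
  push Not at hcon
  have h : ∃ q ≤ S.res Y r, q ∈ (RO.neg U).1 := ⟨r, S.le_res Y r, fun s hs => hcon s hs⟩
  have h1 := Classical.choose_spec h
  have h2 : S.dom (Classical.choose h) ⊆ Y := by
    have := hcl (S.res Y r) (S.res_dom Y r)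
    simp only [f, dif_pos h] at this
    exact this
  have h3 : S.res Y r ≤ S.res Y p := S.res_le hr (S.res_dom Y p)
  obtain ⟨s, hs1, hs2⟩ := S.amalg Y p _ h2 (h1.1.trans h3)
  exact h1.2 s hs1 (U.down hp hs2)

/-- The free-set argument: a countable-set valued function on a set of size at least `ℵ₂` has two
independent points. -/
theorem exists_free (hX : ℵ_ 2 ≤ #X) (F : X → Set X) (hF : ∀ x, (F x).Countable) :
    ∃ y y' : X, y ∉ F y' ∧ y' ∉ F y := by
  obtain ⟨Z, hZ⟩ : ∃ Z : Set X, #Z = ℵ_ 1 := by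
    apply Cardinal.le_mk_iff_exists_set.1
    refine le_trans ?_ hX
    exact aleph_le_aleph.2 (by norm_num)
  have hunion : #(⋃ x ∈ Z, F x : Set X) ≤ ℵ_ 1 := by
    have h1 : #(⋃ x ∈ Z, F x : Set X) ≤ #Z * ⨆ x : Z, #(F x) := mk_biUnion_le _ _
    refine h1.trans ?_
    rw [hZ]
    have h2 : (⨆ x : Z, #(F x)) ≤ ℵ_ 1 := by
      apply ciSup_le'
      intro x
      exact (hF x).le_aleph0.trans (aleph0_le_aleph 1)
    exact (mul_le_mul' le_rfl h2).trans (mul_eq_self (aleph0_le_aleph 1)).le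
  obtain ⟨y', hy'⟩ : ∃ y', y' ∉ (⋃ x ∈ Z, F x : Set X) := by
    by_contra hcon
    push Not at hcon
    have h1 : (⋃ x ∈ Z, F x : Set X) = Set.univ := Set.eq_univ_of_forall hcon
    rw [h1, mk_univ] at hunion
    have h2 : ℵ_ 2 ≤ ℵ_ 1 := hX.trans hunion
    rw [aleph_le_aleph] at h2
    norm_num at h2
  obtain ⟨y, hyZ, hy⟩ : ∃ y ∈ Z, y ∉ F y' := by
    by_contra hcon
    push Not at hcon
    have h1 : Z.Countable := (hF y').mono hcon
    have h2 : #Z ≤ ℵ₀ := h1.le_aleph0
    rw [hZ] at h2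
    exact absurd h2 (not_le.2 aleph0_lt_aleph_one)
  refine ⟨y, y', hy, fun h => hy' ?_⟩
  exact Set.mem_biUnion hyZ h

end Abstract

/-! ### The posets `Cohen_X(K)` -/

section Concrete

variable {L : FirstOrder.Language.{0, 0}} [L.IsRelational]

/-- The structure induced along a map. -/
@[reducible] def comapStr {A B : Type} (s : L.Structure B) (i : A → B) : L.Structure A where
  funMap := fun f _ => isEmptyElim f
  RelMap := fun R t => s.RelMap R (i ∘ t)

/-- Heredity, for structures given by maps. -/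
theorem IsStrongFraisse.of_map {K : Set (Bundled.{0} L.Structure)} (hK : IsStrongFraisse K)
    {A B : Type} (sA : L.Structure A) (sB : L.Structure B) (hB : Bundled.mk B sB ∈ K)
    (i : A → B) (hi : Function.Injective i)
    (hrel : ∀ (n : ℕ) (R : L.Relations n) (t : Fin n → A), sB.RelMap R (i ∘ t) ↔ sA.RelMap R t) :
    Bundled.mk A sA ∈ K :=
  hK.hereditary _ _ hB
    ⟨letI := sA
     letI := sB
     { toFun := i
       inj' := hi
       map_fun' := fun f _ => isEmptyElim f
       map_rel' := fun R t => hrel _ R t }⟩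

/-- Strong amalgamation, for structures given by maps. -/
theorem IsStrongFraisse.amalg_map {K : Set (Bundled.{0} L.Structure)} (hK : IsStrongFraisse K)
    {A B C : Type} (sA : L.Structure A) (sB : L.Structure B) (sC : L.Structure C)
    (hA : Bundled.mk A sA ∈ K) (hB : Bundled.mk B sB ∈ K) (hC : Bundled.mk C sC ∈ K)
    (f : A → B) (hf : Function.Injective f)
    (hfr : ∀ (n : ℕ) (R : L.Relations n) (t : Fin n → A), sB.RelMap R (f ∘ t) ↔ sA.RelMap R t)
    (g : A → C) (hg : Function.Injective g)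
    (hgr : ∀ (n : ℕ) (R : L.Relations n) (t : Fin n → A), sC.RelMap R (g ∘ t) ↔ sA.RelMap R t) :
    ∃ (D : Type) (sD : L.Structure D) (_ : Bundled.mk D sD ∈ K) (f' : B → D) (g' : C → D),
      Function.Injective f' ∧ Function.Injective g' ∧
      (∀ (n : ℕ) (R : L.Relations n) (t : Fin n → B), sD.RelMap R (f' ∘ t) ↔ sB.RelMap R t) ∧
      (∀ (n : ℕ) (R : L.Relations n) (t : Fin n → C), sD.RelMap R (g' ∘ t) ↔ sC.RelMap R t) ∧
      (∀ a, f' (f a) = g' (g a)) ∧ ∀ b c, f' b = g' c → ∃ a, f a = b ∧ g a = c := by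
  let F : @Embedding L A B sA sB :=
    letI := sA
    letI := sB
    { toFun := f
      inj' := hf
      map_fun' := fun f _ => isEmptyElim f
      map_rel' := fun R t => hfr _ R t }
  let G : @Embedding L A C sA sC :=
    letI := sA
    letI := sC
    { toFun := g
      inj' := hg
      map_fun' := fun f _ => isEmptyElim f
      map_rel' := fun R t => hgr _ R t }
  obtain ⟨⟨D, sD⟩, hD, f', g', h1, h2⟩ := hK.strongAmalgamation _ hA _ hB _ hC F G
  exact ⟨D, sD, hD, f'.toFun, g'.toFun, f'.inj', g'.inj', fun n R t => f'.map_rel' R t,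
    fun n R t => g'.map_rel' R t, h1, h2⟩

variable {K : Set (Bundled.{0} L.Structure)} {X : Type}

theorem incl_inj {D E : Finset X} (h : ∀ x : D, (x : X) ∈ E) :
    Function.Injective (fun x : D => (⟨x, h x⟩ : E)) :=
  fun _ _ hxy => Subtype.ext (Subtype.mk.inj hxy)

/-- The substructure of a condition on a smaller set. -/
def Cohen.restrict (hK : IsStrongFraisse K) (p : Cohen X K) (D : Finset X)
    (hD : D ⊆ p.dom) : Cohen X K where
  dom := D
  str := comapStr p.str (fun x => ⟨x, hD x.2⟩)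
  mem := hK.of_map _ _ p.mem (fun x => ⟨x, hD x.2⟩)
    (incl_inj _) (fun _ _ _ => Iff.rfl)

theorem Cohen.le_restrict (hK : IsStrongFraisse K) (p : Cohen X K) (D : Finset X)
    (hD : D ⊆ p.dom) : p ≤ p.restrict hK D hD := by
  refine ⟨?_, fun _ _ _ => ?_⟩
  · exact hD
  · exact Iff.rfl

theorem Cohen.restrict_le (hK : IsStrongFraisse K) {p q : Cohen X K} (h : q ≤ p) (D : Finset X)
    (hD : D ⊆ q.dom) (hpD : p.dom ⊆ D) : q.restrict hK D hD ≤ p := by
  refine ⟨?_, fun n R t => ?_⟩
  · exact hpD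
  · exact h.2 n R t

open Classical in
/-- Amalgamation of conditions. -/
theorem Cohen.amalg (hK : IsStrongFraisse K) (a q r : Cohen X K) (hqa : q ≤ a) (hra : r ≤ a)
    (hdom : ∀ x ∈ q.dom, x ∈ r.dom → x ∈ a.dom) : ∃ s : Cohen X K, s ≤ r ∧ s ≤ q := by
  obtain ⟨D, sD, hD, f', g', hf'i, hg'i, hf'r, hg'r, hfg, hdis⟩ :=
    hK.amalg_map a.str r.str q.str a.mem r.mem q.mem
      (fun x => ⟨x, hra.1 x.2⟩) (incl_inj _)
      (fun n R t => hra.2 n R t)
      (fun x => ⟨x, hqa.1 x.2⟩) (incl_inj _)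
      (fun n R t => hqa.2 n R t)
  let E : Finset X := r.dom ∪ q.dom
  let i : E → D := fun x =>
    if h : (x : X) ∈ r.dom then f' ⟨x, h⟩ else g' ⟨x, (Finset.mem_union.1 x.2).resolve_left h⟩
  have hir : ∀ (x : X) (h : x ∈ r.dom) (hE : x ∈ E), i ⟨x, hE⟩ = f' ⟨x, h⟩ := by
    intro x h hE
    simp only [i, dif_pos h]
  have hiq : ∀ (x : X) (h : x ∈ q.dom) (hE : x ∈ E), i ⟨x, hE⟩ = g' ⟨x, h⟩ := by
    intro x h hE
    by_cases hr : x ∈ r.dom
    · rw [hir x hr hE]
      exact hfg ⟨x, hdom x h hr⟩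
    · simp only [i, dif_neg hr]
  have hi : Function.Injective i := by
    rintro ⟨x, hx⟩ ⟨y, hy⟩ hxy
    rcases Finset.mem_union.1 hx with hxr | hxq <;> rcases Finset.mem_union.1 hy with hyr | hyq
    · rw [hir x hxr, hir y hyr] at hxy
      have := hf'i hxy
      simpa using this
    · rw [hir x hxr, hiq y hyq] at hxy
      obtain ⟨c, hc1, hc2⟩ := hdis _ _ hxy
      have h1 : (c : X) = x := congrArg Subtype.val hc1
      have h2 : (c : X) = y := congrArg Subtype.val hc2
      exact Subtype.ext (h1.symm.trans h2)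
    · rw [hiq x hxq, hir y hyr] at hxy
      obtain ⟨c, hc1, hc2⟩ := hdis _ _ hxy.symm
      have h1 : (c : X) = y := congrArg Subtype.val hc1
      have h2 : (c : X) = x := congrArg Subtype.val hc2
      exact Subtype.ext (h2.symm.trans h1)
    · rw [hiq x hxq, hiq y hyq] at hxy
      have := hg'i hxy
      simpa using this
  refine ⟨⟨E, comapStr sD i, hK.of_map _ _ hD i hi (fun _ _ _ => Iff.rfl)⟩, ?_, ?_⟩
  · refine ⟨Finset.subset_union_left, fun n R t => ?_⟩
    refine Iff.trans (Eq.to_iff ?_) (hf'r n R t)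
    change sD.RelMap R _ = sD.RelMap R _
    congr 1
    funext k
    exact hir _ (t k).2 _
  · refine ⟨Finset.subset_union_right, fun n R t => ?_⟩
    refine Iff.trans (Eq.to_iff ?_) (hg'r n R t)
    change sD.RelMap R _ = sD.RelMap R _
    congr 1
    funext k
    exact hiq _ (t k).2 _

open Classical in
/-- The supports structure of `Cohen_X(K)`. -/
noncomputable def cohenSupp (hK : IsStrongFraisse K)
    (hc : ∀ D : Finset X, Countable (L.Structure D)) : Supp (Cohen X K) X where
  dom p := p.dom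
  fin p := p.dom.finite_toSet
  res Y p := p.restrict hK (p.dom.filter (· ∈ Y)) (Finset.filter_subset _ _)
  res_dom Y p := by
    intro x hx
    exact (Finset.mem_filter.1 (show x ∈ p.dom.filter (· ∈ Y) from Finset.mem_coe.1 hx)).2
  le_res Y p := Cohen.le_restrict hK p _ _
  res_le {Y p q} hqp hY := Cohen.restrict_le hK hqp _ _ (by
    intro x hx
    exact Finset.mem_filter.2 ⟨hqp.1 hx, hY hx⟩)
  amalg Y q r hr hrq := by
    refine Cohen.amalg hK (q.restrict hK (q.dom.filter (· ∈ Y)) (Finset.filter_subset _ _)) q r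
      (Cohen.le_restrict hK q _ _) hrq ?_
    intro x hx hxr
    change x ∈ q.dom.filter (· ∈ Y)
    exact Finset.mem_filter.2 ⟨hx, hr hxr⟩
  count Y hY := by
    have h1 : {p : Cohen X K | (p.dom : Set X) ⊆ Y} ⊆
        ⋃ D ∈ {D : Finset X | (D : Set X) ⊆ Y}, {p : Cohen X K | p.dom = D} := by
      intro p hp
      exact Set.mem_biUnion (show p.dom ∈ {D : Finset X | (D : Set X) ⊆ Y} from hp) rfl
    refine Set.Countable.mono h1 (Set.Countable.biUnion ?_ ?_)
    · have h2 := Set.countable_ofPred_finite_subset hY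
      refine Set.Countable.mono ?_ (h2.preimage_of_injOn
        (f := fun D : Finset X => (D : Set X)) (Finset.coe_injective.injOn))
      intro D hD
      exact ⟨D.finite_toSet, hD⟩
    · intro D _
      have := hc D
      rw [← Set.countable_coe_iff]
      refine Function.Injective.countable (f := fun p : {p : Cohen X K | p.dom = D} =>
        (p.2 ▸ p.1.str : L.Structure D)) ?_
      rintro ⟨⟨d, s, m⟩, rfl⟩ ⟨⟨d', s', m'⟩, h'⟩ heq
      change d' = d at h'
      subst h'
      change s = s' at heq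
      subst heq
      rfl

end Concrete

/-! ### The classes are strong Fraisse classes -/

section FreeAmalgam

variable {L : FirstOrder.Language.{0, 0}} [L.IsRelational]

open Classical in
theorem free_amalgam {A B C : Type} (sA : L.Structure A) (sB : L.Structure B)
    (sC : L.Structure C) [Finite B] [Finite C]
    (f : A → B) (hf : Function.Injective f)
    (hfr : ∀ (n : ℕ) (R : L.Relations n) (t : Fin n → A), sB.RelMap R (f ∘ t) ↔ sA.RelMap R t)
    (g : A → C) (hg : Function.Injective g)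
    (hgr : ∀ (n : ℕ) (R : L.Relations n) (t : Fin n → A), sC.RelMap R (g ∘ t) ↔ sA.RelMap R t) :
    ∃ (D : Type) (sD : L.Structure D) (f' : B → D) (g' : C → D), Finite D ∧
      Function.Injective f' ∧ Function.Injective g' ∧
      (∀ (n : ℕ) (R : L.Relations n) (t : Fin n → B), sD.RelMap R (f' ∘ t) ↔ sB.RelMap R t) ∧
      (∀ (n : ℕ) (R : L.Relations n) (t : Fin n → C), sD.RelMap R (g' ∘ t) ↔ sC.RelMap R t) ∧
      (∀ a, f' (f a) = g' (g a)) ∧ (∀ b c, f' b = g' c → ∃ a, f a = b ∧ g a = c) ∧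
      (∀ (n : ℕ) (R : L.Relations n) (t : Fin n → D), sD.RelMap R t →
        (∃ tB, f' ∘ tB = t ∧ sB.RelMap R tB) ∨ (∃ tC, g' ∘ tC = t ∧ sC.RelMap R tC)) := by
  let D : Type := B ⊕ {c : C // ¬ ∃ a, g a = c}
  let f' : B → D := Sum.inl
  let g' : C → D := fun c => if h : ∃ a, g a = c then Sum.inl (f (Classical.choose h))
    else Sum.inr ⟨c, h⟩
  have hf'i : Function.Injective f' := Sum.inl_injective
  have hfg : ∀ a, f' (f a) = g' (g a) := by
    intro a
    have h : ∃ a', g a' = g a := ⟨a, rfl⟩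
    have h1 : g' (g a) = Sum.inl (f (Classical.choose h)) := dif_pos h
    rw [h1, hg (Classical.choose_spec h)]
  have hdis : ∀ b c, f' b = g' c → ∃ a, f a = b ∧ g a = c := by
    intro b c h
    by_cases h' : ∃ a, g a = c
    · obtain ⟨a, rfl⟩ := h'
      rw [← hfg] at h
      exact ⟨a, (hf'i h).symm, rfl⟩
    · have h1 : g' c = Sum.inr ⟨c, h'⟩ := dif_neg h'
      rw [h1] at h
      exact absurd h Sum.inl_ne_inr
  have hg'i : Function.Injective g' := by
    intro c c' h
    by_cases h' : ∃ a, g a = c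
    · obtain ⟨a, rfl⟩ := h'
      rw [← hfg] at h
      obtain ⟨a', ha1, ha2⟩ := hdis _ _ h
      rw [← hf ha1, ha2]
    · by_cases h'' : ∃ a, g a = c'
      · obtain ⟨a, rfl⟩ := h''
        rw [← hfg] at h
        obtain ⟨a', ha1, ha2⟩ := hdis _ _ h.symm
        rw [← hf ha1, ha2]
      · have h1 : g' c = Sum.inr ⟨c, h'⟩ := dif_neg h'
        have h2 : g' c' = Sum.inr ⟨c', h''⟩ := dif_neg h''
        rw [h1, h2] at h
        exact congrArg Subtype.val (Sum.inr_injective h)
  have htr : ∀ (n : ℕ) (tB : Fin n → B) (tC : Fin n → C), f' ∘ tB = g' ∘ tC →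
      ∃ tA : Fin n → A, f ∘ tA = tB ∧ g ∘ tA = tC := by
    intro n tB tC h
    have h1 : ∀ k, ∃ a, f a = tB k ∧ g a = tC k := fun k => hdis _ _ (congrFun h k)
    choose tA h2 h3 using h1
    exact ⟨tA, funext h2, funext h3⟩
  let sD : L.Structure D :=
    { funMap := fun f _ => isEmptyElim f
      RelMap := fun R t =>
        (∃ tB, f' ∘ tB = t ∧ sB.RelMap R tB) ∨ (∃ tC, g' ∘ tC = t ∧ sC.RelMap R tC) }
  refine ⟨D, sD, f', g', inferInstance, hf'i, hg'i, ?_, ?_, hfg, hdis, fun n R t h => h⟩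
  · intro n R t
    constructor
    · rintro (⟨tB, h1, h2⟩ | ⟨tC, h1, h2⟩)
      · rwa [← hf'i.comp_left h1]
      · obtain ⟨tA, rfl, rfl⟩ := htr n t tC h1.symm
        rw [hfr]
        rwa [hgr] at h2
    · intro h
      exact Or.inl ⟨t, rfl, h⟩
  · intro n R t
    constructor
    · rintro (⟨tB, h1, h2⟩ | ⟨tC, h1, h2⟩)
      · obtain ⟨tA, rfl, rfl⟩ := htr n tB t h1
        rw [hgr]
        rwa [hfr] at h2
      · rwa [← hg'i.comp_left h1]
    · intro h
      exact Or.inr ⟨t, rfl, h⟩

/-- Bundling maps into embeddings. -/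
def mkEmb {A B : Type} (sA : L.Structure A) (sB : L.Structure B) (i : A → B)
    (hi : Function.Injective i)
    (hrel : ∀ (n : ℕ) (R : L.Relations n) (t : Fin n → A), sB.RelMap R (i ∘ t) ↔ sA.RelMap R t) :
    @Embedding L A B sA sB :=
  letI := sA
  letI := sB
  { toFun := i
    inj' := hi
    map_fun' := fun f _ => isEmptyElim f
    map_rel' := fun R t => hrel _ R t }

/-- A criterion for strong Fraisse classes: closure under free amalgams. -/
theorem isStrongFraisse_of (K : Set (Bundled.{0} L.Structure)) [hL : IsEmpty (L.Relations 0)]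
    (hempty : ∀ s : L.Structure Empty, Bundled.mk Empty s ∈ K)
    (hfin : ∀ A ∈ K, Finite A)
    (hher : ∀ (A B : Type) (sA : L.Structure A) (sB : L.Structure B) (i : A → B),
      Function.Injective i →
      (∀ (n : ℕ) (R : L.Relations n) (t : Fin n → A), sB.RelMap R (i ∘ t) ↔ sA.RelMap R t) →
      Bundled.mk B sB ∈ K → Bundled.mk A sA ∈ K)
    (ham : ∀ (B C D : Type) (sB : L.Structure B) (sC : L.Structure C) (sD : L.Structure D)
      (f' : B → D) (g' : C → D), Finite D → Bundled.mk B sB ∈ K → Bundled.mk C sC ∈ K →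
      Function.Injective f' → Function.Injective g' →
      (∀ (n : ℕ) (R : L.Relations n) (t : Fin n → B), sD.RelMap R (f' ∘ t) ↔ sB.RelMap R t) →
      (∀ (n : ℕ) (R : L.Relations n) (t : Fin n → C), sD.RelMap R (g' ∘ t) ↔ sC.RelMap R t) →
      (∀ (n : ℕ) (R : L.Relations n) (t : Fin n → D), sD.RelMap R t →
        (∃ tB, f' ∘ tB = t ∧ sB.RelMap R tB) ∨ (∃ tC, g' ∘ tC = t ∧ sC.RelMap R tC)) →
      Bundled.mk D sD ∈ K) : IsStrongFraisse K := by
  have hsap : ∀ A ∈ K, ∀ B ∈ K, ∀ C ∈ K, ∀ (f : A ↪[L] B) (g : A ↪[L] C),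
      ∃ D ∈ K, ∃ (f' : B ↪[L] D) (g' : C ↪[L] D), (∀ a, f' (f a) = g' (g a)) ∧
        ∀ b c, f' b = g' c → ∃ a, f a = b ∧ g a = c := by
    rintro ⟨A, sA⟩ hA ⟨B, sB⟩ hB ⟨C, sC⟩ hC f g
    have : Finite B := hfin _ hB
    have : Finite C := hfin _ hC
    obtain ⟨D, sD, f', g', h1, h2, h3, h4, h5, h6, h7, h8⟩ := free_amalgam sA sB sC f.toFun
      f.inj' (fun n R t => f.map_rel' R t) g.toFun g.inj' (fun n R t => g.map_rel' R t)
    exact ⟨⟨D, sD⟩, ham B C D sB sC sD f' g' h1 hB hC h2 h3 h4 h5 h8,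
      mkEmb sB sD f' h2 h4, mkEmb sC sD g' h3 h5, h6, h7⟩
  refine ⟨?_, hfin, ?_, ?_, hsap⟩
  · exact ⟨_, hempty { funMap := fun f _ => isEmptyElim f, RelMap := fun _ _ => False }⟩
  · rintro ⟨A, sA⟩ ⟨B, sB⟩ hB ⟨i⟩
    exact hher A B sA sB i.toFun i.inj' (fun n R t => i.map_rel' R t) hB
  · rintro ⟨B, sB⟩ hB ⟨C, sC⟩ hC
    let sE : L.Structure Empty :=
      { funMap := fun f _ => isEmptyElim f, RelMap := fun _ _ => False }
    have hrel : ∀ (Z : Type) (sZ : L.Structure Z) (n : ℕ) (R : L.Relations n)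
        (t : Fin n → Empty), sZ.RelMap R ((fun x : Empty => x.elim) ∘ t) ↔ sE.RelMap R t := by
      intro Z sZ n R t
      cases n with
      | zero => exact hL.elim R
      | succ n => exact (t 0).elim
    obtain ⟨D, hD, f', g', -, -⟩ := hsap _ (hempty sE) _ hB _ hC
      (mkEmb sE sB (fun x => x.elim) (fun x => x.elim) (hrel B sB))
      (mkEmb sE sC (fun x => x.elim) (fun x => x.elim) (hrel C sC))
    exact ⟨D, hD, ⟨f'⟩, ⟨g'⟩⟩

end FreeAmalgam

instance : IsEmpty (unary.Relations 0) := ⟨fun R => by cases R⟩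

instance : IsEmpty (FirstOrder.Language.graph.Relations 0) := ⟨fun R => by cases R⟩

theorem strongFraisse_unary : IsStrongFraisse KUnary := by
  refine isStrongFraisse_of KUnary (fun s => (inferInstance : Finite Empty)) (fun A hA => hA)
    ?_ ?_
  · intro A B sA sB i hi _ hB
    have : Finite B := hB
    exact Finite.of_injective i hi
  · intro B C D sB sC sD f' g' hD _ _ _ _ _ _ _
    exact hD

theorem comp_two {A B : Type} (i : A → B) (a b : A) : i ∘ ![a, b] = ![i a, i b] := by
  funext k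
  fin_cases k <;> rfl

theorem strongFraisse_triangleFree : IsStrongFraisse KTriangleFree := by
  refine isStrongFraisse_of KTriangleFree ?_ (fun A hA => hA.1) ?_ ?_
  · intro s
    exact ⟨(inferInstance : Finite Empty), fun a => a.elim, fun a => a.elim, fun a => a.elim⟩
  · intro A B sA sB i hi hrel hB
    obtain ⟨h1, h2, h3, h4⟩ := hB
    have h1' : Finite B := h1
    have key : ∀ a b : A, sA.RelMap adj ![a, b] ↔ sB.RelMap adj ![i a, i b] := by
      intro a b
      rw [← comp_two]
      exact (hrel 2 adj _).symm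
    refine ⟨Finite.of_injective i hi, fun a h => ?_, fun a b h => ?_, fun a b c h h' h'' => ?_⟩
    · exact h2 (i a) ((key _ _).1 h)
    · exact (key _ _).2 (h3 _ _ ((key _ _).1 h))
    · exact h4 _ _ _ ((key _ _).1 h) ((key _ _).1 h') ((key _ _).1 h'')
  · intro B C D sB sC sD f' g' hD hB hC hf hg hfr hgr hcov
    obtain ⟨hB1, hB2, hB3, hB4⟩ := hB
    obtain ⟨hC1, hC2, hC3, hC4⟩ := hC
    have keyB : ∀ a b : B, sD.RelMap adj ![f' a, f' b] ↔ sB.RelMap adj ![a, b] := by
      intro a b
      rw [← comp_two]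
      exact hfr 2 adj _
    have keyC : ∀ a b : C, sD.RelMap adj ![g' a, g' b] ↔ sC.RelMap adj ![a, b] := by
      intro a b
      rw [← comp_two]
      exact hgr 2 adj _
    have cov : ∀ x y : D, sD.RelMap adj ![x, y] →
        (∃ a b, f' a = x ∧ f' b = y) ∨ (∃ a b, g' a = x ∧ g' b = y) := by
      intro x y h
      rcases hcov 2 adj _ h with ⟨t, h1, -⟩ | ⟨t, h1, -⟩
      · exact Or.inl ⟨t 0, t 1, congrFun h1 0, congrFun h1 1⟩
      · exact Or.inr ⟨t 0, t 1, congrFun h1 0, congrFun h1 1⟩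
    refine ⟨hD, fun x h => ?_, fun x y h => ?_, fun x y z h h' h'' => ?_⟩
    · rcases cov x x h with ⟨a, b, h1, h2⟩ | ⟨a, b, h1, h2⟩
      · subst h1
        exact hB2 a ((keyB _ _).1 h)
      · subst h1
        exact hC2 a ((keyC _ _).1 h)
    · rcases cov x y h with ⟨a, b, rfl, rfl⟩ | ⟨a, b, rfl, rfl⟩
      · exact (keyB _ _).2 (hB3 _ _ ((keyB _ _).1 h))
      · exact (keyC _ _).2 (hC3 _ _ ((keyC _ _).1 h))
    · have hBtri : ∀ a b c : B, f' a = x → f' b = y → f' c = z → False := by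
        rintro a b c rfl rfl rfl
        exact hB4 _ _ _ ((keyB _ _).1 h) ((keyB _ _).1 h') ((keyB _ _).1 h'')
      have hCtri : ∀ a b c : C, g' a = x → g' b = y → g' c = z → False := by
        rintro a b c rfl rfl rfl
        exact hC4 _ _ _ ((keyC _ _).1 h) ((keyC _ _).1 h') ((keyC _ _).1 h'')
      rcases cov x y h with ⟨a1, b1, ha1, hb1⟩ | ⟨a1, b1, ha1, hb1⟩ <;>
      rcases cov y z h' with ⟨a2, b2, ha2, hb2⟩ | ⟨a2, b2, ha2, hb2⟩ <;>
      rcases cov x z h'' with ⟨a3, b3, ha3, hb3⟩ | ⟨a3, b3, ha3, hb3⟩ <;>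
      first
        | exact hBtri _ _ _ ha1 hb1 hb2
        | exact hBtri _ _ _ ha1 hb1 hb3
        | exact hBtri _ _ _ ha3 ha2 hb2
        | exact hCtri _ _ _ ha1 hb1 hb2
        | exact hCtri _ _ _ ha1 hb1 hb3
        | exact hCtri _ _ _ ha3 ha2 hb2

/-! ### Non-triviality and isomorphism types -/

/-- A graph-language structure from a relation. -/
@[reducible] def graphStr {A : Type} (E : A → A → Prop) : FirstOrder.Language.graph.Structure A where
  funMap := fun f _ => isEmptyElim f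
  RelMap | .adj => fun t => E (t 0) (t 1)

/-- A structure with one unary relation from a set. -/
@[reducible] def unaryStr {A : Type} (E : A → Prop) : unary.Structure A where
  funMap := fun f _ => isEmptyElim f
  RelMap | .U => fun t => E (t 0)

theorem not_trivial_unary : ¬ IsTrivialClass KUnary := by
  intro h
  have h1 := h 1 (Relations.formula₁ (L := unary) UnaryRel.U (Term.var 0))
    (Or.inl (BoundedFormula.IsAtomic.rel _ _))
  rcases h1 with h1 | h1
  · let s : unary.Structure (Fin 1) := unaryStr (fun _ => False)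
    have h2 := h1 ⟨Fin 1, s⟩ (inferInstance : Finite (Fin 1)) id Function.injective_id
    exact h2
  · let s : unary.Structure (Fin 1) := unaryStr (fun _ => True)
    have h2 := h1 ⟨Fin 1, s⟩ (inferInstance : Finite (Fin 1)) id Function.injective_id
    exact h2 trivial

theorem not_trivial_triangleFree : ¬ IsTrivialClass KTriangleFree := by
  intro h
  have h1 := h 2 (Relations.formula₂ (L := FirstOrder.Language.graph) adj (Term.var 0)
    (Term.var 1)) (Or.inl (BoundedFormula.IsAtomic.rel _ _))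
  rcases h1 with h1 | h1
  · let s : FirstOrder.Language.graph.Structure (Fin 2) := graphStr (fun _ _ => False)
    have hK : Bundled.mk (Fin 2) s ∈ KTriangleFree :=
      ⟨(inferInstance : Finite (Fin 2)), fun a h => h, fun a b h => h, fun a b c h => h.elim⟩
    have h2 := h1 _ hK id Function.injective_id
    exact h2
  · let s : FirstOrder.Language.graph.Structure (Fin 2) := graphStr (fun a b => a ≠ b)
    have hK : Bundled.mk (Fin 2) s ∈ KTriangleFree := by
      refine ⟨(inferInstance : Finite (Fin 2)), fun a h => h rfl, fun a b h => h.symm, ?_⟩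
      exact (by decide : ∀ a b c : Fin 2, a ≠ b → b ≠ c → ¬ a ≠ c)
    have h2 := h1 _ hK id Function.injective_id
    exact h2 (show (0 : Fin 2) ≠ 1 by decide)

theorem types_unary : AtMostTypes KUnary ℵ₀ := by
  classical
  refine ⟨Σ n : ℕ, (Fin n → Bool), fun i => ⟨Fin i.1, unaryStr (fun k => i.2 k = true)⟩,
    mk_le_aleph0, ?_⟩
  rintro ⟨A, s⟩ (hA : Finite A)
  obtain ⟨n, ⟨e⟩⟩ := Finite.exists_equiv_fin A
  refine ⟨⟨n, fun k => decide (s.RelMap UnaryRel.U ![e.symm k])⟩,
    ⟨@FirstOrder.Language.Equiv.mk unary A (Fin n) s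
      (unaryStr (fun k => decide (s.RelMap UnaryRel.U ![e.symm k]) = true)) e
      (fun f _ => isEmptyElim f) ?_⟩⟩
  intro n R t
  cases R
  change decide (s.RelMap UnaryRel.U ![e.symm (e (t 0))]) = true ↔ s.RelMap UnaryRel.U t
  rw [decide_eq_true_iff, Equiv.symm_apply_apply]
  have : ![t 0] = t := by
    funext k
    fin_cases k
    rfl
  rw [this]

theorem types_triangleFree : AtMostTypes KTriangleFree ℵ₀ := by
  classical
  refine ⟨Σ n : ℕ, (Fin n → Fin n → Bool),
    fun i => ⟨Fin i.1, graphStr (fun k l => i.2 k l = true)⟩, mk_le_aleph0, ?_⟩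
  rintro ⟨A, s⟩ ⟨hA, -⟩
  have hA' : Finite A := hA
  obtain ⟨n, ⟨e⟩⟩ := Finite.exists_equiv_fin A
  refine ⟨⟨n, fun k l => decide (s.RelMap adj ![e.symm k, e.symm l])⟩,
    ⟨@FirstOrder.Language.Equiv.mk FirstOrder.Language.graph A (Fin n) s
      (graphStr (fun k l => decide (s.RelMap adj ![e.symm k, e.symm l]) = true)) e
      (fun f _ => isEmptyElim f) ?_⟩⟩
  intro n R t
  cases R
  change decide (s.RelMap adj ![e.symm (e (t 0)), e.symm (e (t 1))]) = true ↔ s.RelMap adj t
  rw [decide_eq_true_iff, Equiv.symm_apply_apply, Equiv.symm_apply_apply]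
  have : ![t 0, t 1] = t := by
    funext k
    fin_cases k <;> rfl
  rw [this]

theorem unary_ext {A : Type} {s s' : unary.Structure A}
    (h : ∀ a, s.RelMap UnaryRel.U ![a] ↔ s'.RelMap UnaryRel.U ![a]) : s = s' := by
  cases s with
  | mk f r =>
    cases s' with
    | mk f' r' =>
      congr 1
      · funext n g
        exact isEmptyElim g
      · funext n R t
        cases R
        have ht : ![t 0] = t := by
          funext k
          fin_cases k
          rfl
        rw [← ht]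
        exact propext (h (t 0))

theorem graph_ext {A : Type} {s s' : FirstOrder.Language.graph.Structure A}
    (h : ∀ a b, s.RelMap adj ![a, b] ↔ s'.RelMap adj ![a, b]) : s = s' := by
  cases s with
  | mk f r =>
    cases s' with
    | mk f' r' =>
      congr 1
      · funext n g
        exact isEmptyElim g
      · funext n R t
        cases R
        have ht : ![t 0, t 1] = t := by
          funext k
          fin_cases k <;> rfl
        rw [← ht]
        exact propext (h (t 0) (t 1))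

theorem countable_unary {A : Type} [Finite A] : Countable (unary.Structure A) := by
  refine Function.Injective.countable (f := fun s : unary.Structure A =>
    fun a : A => s.RelMap UnaryRel.U ![a]) ?_
  intro s s' h
  exact unary_ext fun a => Eq.to_iff (congrFun h a)

theorem countable_graph {A : Type} [Finite A] :
    Countable (FirstOrder.Language.graph.Structure A) := by
  refine Function.Injective.countable (f := fun s : FirstOrder.Language.graph.Structure A =>
    fun a b : A => s.RelMap adj ![a, b]) ?_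
  intro s s' h
  exact graph_ext fun a b => Eq.to_iff (congrFun (congrFun h a) b)

/-! ### Conditions of the two forcings -/

variable {X : Type}

/-- Adjacency in a condition. -/
def gadj (p : Cohen X KTriangleFree) (a b : X) : Prop :=
  ∃ (ha : a ∈ p.dom) (hb : b ∈ p.dom), p.rel adj ![⟨a, ha⟩, ⟨b, hb⟩]

theorem gadj_symm {p : Cohen X KTriangleFree} {a b : X} (h : gadj p a b) : gadj p b a := by
  obtain ⟨ha, hb, h⟩ := h
  exact ⟨hb, ha, p.mem.2.2.1 _ _ h⟩

theorem gadj_irrefl {p : Cohen X KTriangleFree} {a : X} : ¬ gadj p a a := by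
  rintro ⟨ha, hb, h⟩
  exact p.mem.2.1 _ h

theorem gadj_triangle {p : Cohen X KTriangleFree} {a b c : X} (h : gadj p a b)
    (h' : gadj p b c) : ¬ gadj p a c := by
  obtain ⟨ha, hb, h⟩ := h
  obtain ⟨hb', hc, h'⟩ := h'
  rintro ⟨ha', hc', h''⟩
  exact p.mem.2.2.2 _ _ _ h h' h''

/-- A condition from a finite set and a relation. -/
def mkG (D : Finset X) (E : X → X → Prop) (h1 : ∀ a, ¬ E a a) (h2 : ∀ a b, E a b → E b a)
    (h3 : ∀ a b c, E a b → E b c → ¬ E a c) : Cohen X KTriangleFree where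
  dom := D
  str := graphStr (fun a b => E a b)
  mem := ⟨(inferInstance : Finite D), fun a => h1 a, fun a b => h2 a b, fun a b c => h3 a b c⟩

theorem gadj_mkG {D : Finset X} {E : X → X → Prop} {h1 h2 h3} {a b : X} :
    gadj (mkG D E h1 h2 h3) a b ↔ a ∈ D ∧ b ∈ D ∧ E a b := by
  constructor
  · rintro ⟨ha, hb, h⟩
    exact ⟨ha, hb, h⟩
  · rintro ⟨ha, hb, h⟩
    exact ⟨ha, hb, h⟩

theorem g_le_iff {p q : Cohen X KTriangleFree} : p ≤ q ↔ q.dom ⊆ p.dom ∧
    ∀ a ∈ q.dom, ∀ b ∈ q.dom, (gadj p a b ↔ gadj q a b) := by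
  constructor
  · rintro ⟨h, h'⟩
    refine ⟨h, fun a ha b hb => ?_⟩
    have h2 := h' 2 adj ![⟨a, ha⟩, ⟨b, hb⟩]
    have h3 : (fun i => (⟨((![⟨a, ha⟩, ⟨b, hb⟩] : Fin 2 → q.dom) i : X),
        h ((![⟨a, ha⟩, ⟨b, hb⟩] : Fin 2 → q.dom) i).2⟩ : p.dom)) =
        ![⟨a, h ha⟩, ⟨b, h hb⟩] := by
      funext k
      fin_cases k <;> rfl
    rw [h3] at h2
    constructor
    · rintro ⟨_, _, h4⟩
      exact ⟨ha, hb, h2.1 h4⟩
    · rintro ⟨_, _, h4⟩
      exact ⟨h ha, h hb, h2.2 h4⟩
  · rintro ⟨h, h'⟩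
    refine ⟨h, fun n R t => ?_⟩
    cases R
    have h2 := h' _ (t 0).2 _ (t 1).2
    have h3 : (fun i => (⟨(t i : X), h (t i).2⟩ : p.dom)) =
        ![⟨t 0, h (t 0).2⟩, ⟨t 1, h (t 1).2⟩] := by
      funext k
      fin_cases k <;> rfl
    have h4 : t = ![t 0, t 1] := by
      funext k
      fin_cases k <;> rfl
    rw [h3]
    constructor
    · intro h5
      obtain ⟨_, _, h6⟩ := h2.1 ⟨h (t 0).2, h (t 1).2, h5⟩
      rw [h4]
      exact h6
    · intro h5
      rw [h4] at h5
      obtain ⟨_, _, h6⟩ := h2.2 ⟨(t 0).2, (t 1).2, h5⟩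
      exact h6

/-- The truth value in a condition of the unary forcing. -/
def uval (p : Cohen X KUnary) (a : X) : Prop :=
  ∃ ha : a ∈ p.dom, p.rel UnaryRel.U ![⟨a, ha⟩]

theorem u_le_iff {p q : Cohen X KUnary} : p ≤ q ↔ q.dom ⊆ p.dom ∧
    ∀ a ∈ q.dom, (uval p a ↔ uval q a) := by
  constructor
  · rintro ⟨h, h'⟩
    refine ⟨h, fun a ha => ?_⟩
    have h2 := h' 1 UnaryRel.U ![⟨a, ha⟩]
    have h3 : (fun i => (⟨((![⟨a, ha⟩] : Fin 1 → q.dom) i : X),
        h ((![⟨a, ha⟩] : Fin 1 → q.dom) i).2⟩ : p.dom)) = ![⟨a, h ha⟩] := by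
      funext k
      fin_cases k
      rfl
    rw [h3] at h2
    constructor
    · rintro ⟨_, h4⟩
      exact ⟨ha, h2.1 h4⟩
    · rintro ⟨_, h4⟩
      exact ⟨h ha, h2.2 h4⟩
  · rintro ⟨h, h'⟩
    refine ⟨h, fun n R t => ?_⟩
    cases R
    have h2 := h' _ (t 0).2
    have h3 : (fun i => (⟨(t i : X), h (t i).2⟩ : p.dom)) = ![⟨t 0, h (t 0).2⟩] := by
      funext k
      fin_cases k
      rfl
    have h4 : t = ![t 0] := by
      funext k
      fin_cases k
      rfl
    rw [h3]
    constructor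
    · intro h5
      obtain ⟨_, h6⟩ := h2.1 ⟨h (t 0).2, h5⟩
      rw [h4]
      exact h6
    · intro h5
      rw [h4] at h5
      obtain ⟨_, h6⟩ := h2.2 ⟨(t 0).2, h5⟩
      exact h6

/-! ### The main argument -/

theorem iso_nonempty {P Q : Type} [Preorder P] [Preorder Q] (φ : RO P ≃o RO Q) {U : RO P}
    (hU : U.1.Nonempty) : (φ U).1.Nonempty := by
  by_contra hcon
  rw [Set.not_nonempty_iff_eq_empty] at hcon
  let B : RO P := ⟨∅, fun p => ⟨fun h => h.elim, fun h => by
    obtain ⟨r, -, hr⟩ := h p le_rfl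
    exact hr⟩⟩
  have h1 : φ U ≤ φ B := by
    change (φ U).1 ⊆ (φ B).1
    rw [hcon]
    exact Set.empty_subset _
  have h2 : U ≤ B := φ.le_iff_le.1 h1
  obtain ⟨x, hx⟩ := hU
  exact h2 hx

theorem main (hX : ℵ_ 2 ≤ #X) : ¬ ForcingEquivalent (Cohen X KUnary) (Cohen X KTriangleFree) := by
  classical
  rintro ⟨ψ⟩
  let φ := ψ.symm
  let S₀ : Supp (Cohen X KUnary) X := cohenSupp strongFraisse_unary (fun D => countable_unary)
  let S₁ : Supp (Cohen X KTriangleFree) X :=
    cohenSupp strongFraisse_triangleFree (fun D => countable_graph)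
  have hs₁ : ∀ p : Cohen X KTriangleFree, ∃ Y : Set X, Y.Countable ∧
      Supports S₀ Y (φ (RO.gen p)) := fun p => exists_support S₀ _
  have hs₀ : ∀ p : Cohen X KUnary, ∃ Y : Set X, Y.Countable ∧
      Supports S₁ Y (φ.symm (RO.gen p)) := fun p => exists_support S₁ _
  choose s₁ hs₁c hs₁ using hs₁
  choose s₀ hs₀c hs₀ using hs₀
  have hXinf : Infinite X := by
    rw [Cardinal.infinite_iff]
    exact (aleph0_le_aleph 2).trans hX
  let N : Set X := Set.range (Infinite.natEmbedding X)
  have hNc : N.Countable := Set.countable_range _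
  have hNi : N.Infinite := Set.infinite_range_of_injective (Infinite.natEmbedding X).injective
  have hcl : ∀ x : X, ∃ Y : Set X, Y.Countable ∧ insert x N ⊆ Y ∧
      ∀ p : Cohen X KTriangleFree ⊕ Cohen X KUnary, Sum.elim S₁.dom S₀.dom p ⊆ Y →
        Sum.elim s₁ s₀ p ⊆ Y := by
    intro x
    refine exists_closed (Sum.elim S₁.dom S₀.dom) ?_ ?_ (Sum.elim s₁ s₀) ?_ _ (hNc.insert x)
    · rintro (p | p)
      · exact S₁.fin p
      · exact S₀.fin p
    · intro Y hY
      have h1 := ((S₁.count Y hY).image Sum.inl).union ((S₀.count Y hY).image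
        (Sum.inr : Cohen X KUnary → Cohen X KTriangleFree ⊕ Cohen X KUnary))
      refine h1.mono ?_
      rintro (p | p) hp
      · exact Or.inl ⟨p, hp, rfl⟩
      · exact Or.inr ⟨p, hp, rfl⟩
    · rintro (p | p)
      · exact hs₁c p
      · exact hs₀c p
  choose F hFc hFsub hFcl using hcl
  obtain ⟨y, y', hyy', hy'y⟩ := exists_free hX F hFc
  have hF₁ : ∀ (x : X) (p : Cohen X KTriangleFree), S₁.dom p ⊆ F x →
      Supports S₀ (F x) (φ (RO.gen p)) := fun x p hp => (hs₁ p).mono (hFcl x (Sum.inl p) hp)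
  have hF₀ : ∀ (x : X) (p : Cohen X KUnary), S₀.dom p ⊆ F x →
      Supports S₁ (F x) (φ.symm (RO.gen p)) := fun x p hp => (hs₀ p).mono (hFcl x (Sum.inr p) hp)
  have hyY : y ∈ F y := hFsub y (Set.mem_insert _ _)
  have hy'Y' : y' ∈ F y' := hFsub y' (Set.mem_insert _ _)
  have hne : y ≠ y' := fun h => hyy' (h ▸ hyY)
  -- the edge
  let e : Cohen X KTriangleFree := mkG {y, y'} (fun a b => (a = y ∧ b = y') ∨ (a = y' ∧ b = y))
    (by rintro a (⟨h1, h2⟩ | ⟨h1, h2⟩)
        · exact hne (h1.symm.trans h2)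
        · exact hne (h2.symm.trans h1))
    (by rintro a b (⟨h1, h2⟩ | ⟨h1, h2⟩)
        · exact Or.inr ⟨h2, h1⟩
        · exact Or.inl ⟨h2, h1⟩)
    (by rintro a b c (⟨h1, h2⟩ | ⟨h1, h2⟩) (⟨h3, h4⟩ | ⟨h3, h4⟩) (⟨h5, h6⟩ | ⟨h5, h6⟩) <;>
        simp_all)
  obtain ⟨p₀, hp₀⟩ := iso_nonempty φ (U := RO.gen e) ⟨e, RO.mem_gen le_rfl⟩
  obtain ⟨p, hp⟩ := iso_nonempty φ.symm (U := RO.gen p₀) ⟨p₀, RO.mem_gen le_rfl⟩
  have hpc : ∀ Y : Set X, p ∈ (φ.symm (RO.gen (S₀.res Y p₀))).1 := by
    intro Y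
    have h1 : RO.gen p₀ ≤ RO.gen (S₀.res Y p₀) := RO.gen_le (RO.mem_gen (S₀.le_res Y p₀))
    exact φ.symm.monotone h1 hp
  have hpY : ∀ x, S₁.res (F x) p ∈ (φ.symm (RO.gen (S₀.res (F x) p₀))).1 := fun x =>
    hF₀ x _ (S₀.res_dom _ _) p (hpc _)
  -- a new vertex
  obtain ⟨z, hzN, hz⟩ : ∃ z ∈ N, z ∉ insert y (insert y' p.dom) := by
    by_contra hcon
    push Not at hcon
    exact hNi ((insert y (insert y' p.dom)).finite_toSet.subset hcon)
  simp only [Finset.mem_insert, not_or] at hz
  obtain ⟨hzy, hzy', hzp⟩ := hz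
  have hzF : ∀ x, z ∈ F x := fun x => hFsub x (Set.mem_insert_of_mem _ hzN)
  -- extension of the restriction of `p` by `z` joined to `w`
  have hdomres : ∀ x, (S₁.res (F x) p).dom = p.dom.filter (· ∈ F x) := fun x => rfl
  have hext : ∀ w : X, w ∈ F w → w ≠ z → ∃ d : Cohen X KTriangleFree,
      (d.dom = insert w (insert z (p.dom.filter (· ∈ F w)))) ∧
      ∀ a b, gadj d a b ↔ (gadj p a b ∧ a ∈ F w ∧ b ∈ F w) ∨ (a = w ∧ b = z) ∨
        (a = z ∧ b = w) := by
    intro w hw hwz
    refine ⟨mkG (insert w (insert z (p.dom.filter (· ∈ F w))))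
      (fun a b => (gadj p a b ∧ a ∈ F w ∧ b ∈ F w) ∨ (a = w ∧ b = z) ∨ (a = z ∧ b = w))
      ?_ ?_ ?_, rfl, ?_⟩
    · rintro a (⟨h, -⟩ | ⟨h1, h2⟩ | ⟨h1, h2⟩)
      · exact gadj_irrefl h
      · exact hwz (h1.symm.trans h2)
      · exact hwz (h2.symm.trans h1)
    · rintro a b (⟨h, h1, h2⟩ | ⟨h1, h2⟩ | ⟨h1, h2⟩)
      · exact Or.inl ⟨gadj_symm h, h2, h1⟩
      · exact Or.inr (Or.inr ⟨h2, h1⟩)
      · exact Or.inr (Or.inl ⟨h2, h1⟩)
    · have hz1 : ∀ a, ¬ gadj p a z := fun a ⟨_, h, _⟩ => hzp h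
      have hz2 : ∀ a, ¬ gadj p z a := fun a ⟨h, _, _⟩ => hzp h
      rintro a b c (⟨h, h1, h2⟩ | ⟨h1, h2⟩ | ⟨h1, h2⟩) (⟨h', h3, h4⟩ | ⟨h3, h4⟩ | ⟨h3, h4⟩)
        (⟨h'', h5, h6⟩ | ⟨h5, h6⟩ | ⟨h5, h6⟩)
      · exact gadj_triangle h h' h''
      all_goals (try subst_vars) <;> simp_all [gadj_irrefl]
    · intro a b
      rw [gadj_mkG]
      constructor
      · rintro ⟨-, -, h⟩
        exact h
      · intro h
        refine ⟨?_, ?_, h⟩
        · rcases h with ⟨⟨h1, h2, -⟩, h3, h4⟩ | ⟨h1, h2⟩ | ⟨h1, h2⟩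
          · simp [h1, h3]
          · simp [h1]
          · simp [h1]
        · rcases h with ⟨⟨h1, h2, -⟩, h3, h4⟩ | ⟨h1, h2⟩ | ⟨h1, h2⟩
          · simp [h2, h4]
          · simp [h2]
          · simp [h2]
  obtain ⟨d, hdd, hda⟩ := hext y hyY (fun h => hzy h.symm)
  obtain ⟨d', hd'd, hd'a⟩ := hext y' hy'Y' (fun h => hzy' h.symm)
  have hdF : S₁.dom d ⊆ F y := by
    intro x hx
    have hx' : x ∈ d.dom := hx
    rw [hdd, Finset.mem_insert, Finset.mem_insert, Finset.mem_filter] at hx'
    rcases hx' with rfl | rfl | ⟨-, h⟩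
    · exact hyY
    · exact hzF _
    · exact h
  have hd'F : S₁.dom d' ⊆ F y' := by
    intro x hx
    have hx' : x ∈ d'.dom := hx
    rw [hd'd, Finset.mem_insert, Finset.mem_insert, Finset.mem_filter] at hx'
    rcases hx' with rfl | rfl | ⟨-, h⟩
    · exact hy'Y'
    · exact hzF _
    · exact h
  have hdres : ∀ (w : X) (d : Cohen X KTriangleFree), w ∈ F w → w ≠ z →
      d.dom = insert w (insert z (p.dom.filter (· ∈ F w))) →
      (∀ a b, gadj d a b ↔ (gadj p a b ∧ a ∈ F w ∧ b ∈ F w) ∨ (a = w ∧ b = z) ∨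
        (a = z ∧ b = w)) → d ≤ S₁.res (F w) p := by
    intro w d hw hwz h1 h2
    rw [g_le_iff, hdomres, h1]
    refine ⟨fun x hx => by simp only [Finset.mem_insert, hx, or_true], ?_⟩
    intro a ha b hb
    rw [Finset.mem_filter] at ha hb
    have hle := (g_le_iff.1 (S₁.le_res (F w) p)).2 a (by
      rw [hdomres, Finset.mem_filter]; exact ha) b (by
      rw [hdomres, Finset.mem_filter]; exact hb)
    rw [h2, ← hle]
    constructor
    · rintro (h | ⟨-, h⟩ | ⟨h, -⟩)
      · exact h.1
      · exact absurd (h ▸ hb.1) hzp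
      · exact absurd (h ▸ ha.1) hzp
    · intro h
      exact Or.inl ⟨h, ha.2, hb.2⟩
  have hd1 := hdres y d hyY (fun h => hzy h.symm) hdd hda
  have hd1' := hdres y' d' hy'Y' (fun h => hzy' h.symm) hd'd hd'a
  -- a common extension
  obtain ⟨g, hgd, hgd'⟩ : ∃ g : Cohen X KTriangleFree, g ≤ d ∧ g ≤ d' := by
    have hz1 : ∀ a, ¬ gadj p a z := fun a ⟨_, h, _⟩ => hzp h
    have hz2 : ∀ a, ¬ gadj p z a := fun a ⟨h, _, _⟩ => hzp h
    refine ⟨mkG (d.dom ∪ d'.dom) (fun a b => gadj d a b ∨ gadj d' a b) ?_ ?_ ?_, ?_, ?_⟩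
    · rintro a (h | h)
      · exact gadj_irrefl h
      · exact gadj_irrefl h
    · rintro a b (h | h)
      · exact Or.inl (gadj_symm h)
      · exact Or.inr (gadj_symm h)
    · -- neighbours
      have hN : ∀ a, (gadj d a z ∨ gadj d' a z) → a = y ∨ a = y' := by
        rintro a (h | h)
        · rcases (hda a z).1 h with h1 | h1 | h1
          · exact absurd h1.1 (hz1 a)
          · exact Or.inl h1.1
          · exact absurd h1.2 hzy
        · rcases (hd'a a z).1 h with h1 | h1 | h1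
          · exact absurd h1.1 (hz1 a)
          · exact Or.inr h1.1
          · exact absurd h1.2 hzy'
      have hE : ∀ a b, a ≠ z → b ≠ z → (gadj d a b ∨ gadj d' a b) → gadj p a b := by
        rintro a b ha hb (h | h)
        · rcases (hda a b).1 h with h1 | h1 | h1
          · exact h1.1
          · exact absurd h1.2 hb
          · exact absurd h1.1 ha
        · rcases (hd'a a b).1 h with h1 | h1 | h1
          · exact h1.1
          · exact absurd h1.2 hb
          · exact absurd h1.1 ha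
      have hYY : ¬ (gadj d y y' ∨ gadj d' y y') := by
        rintro (h | h)
        · rcases (hda y y').1 h with h1 | h1 | h1
          · exact hy'y h1.2.2
          · exact hzy' h1.2.symm
          · exact hzy h1.1.symm
        · rcases (hd'a y y').1 h with h1 | h1 | h1
          · exact hyy' h1.2.1
          · exact hzy' h1.2.symm
          · exact hzy h1.1.symm
      have hsym : ∀ a b, (gadj d a b ∨ gadj d' a b) → (gadj d b a ∨ gadj d' b a) := by
        rintro a b (h | h)
        · exact Or.inl (gadj_symm h)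
        · exact Or.inr (gadj_symm h)
      have hirr : ∀ a, ¬ (gadj d a a ∨ gadj d' a a) := by
        rintro a (h | h)
        · exact gadj_irrefl h
        · exact gadj_irrefl h
      -- two neighbours of `z` are not adjacent
      have hzz : ∀ a b, (gadj d a z ∨ gadj d' a z) → (gadj d b z ∨ gadj d' b z) →
          ¬ (gadj d a b ∨ gadj d' a b) := by
        intro a b ha hb hab
        rcases hN a ha with rfl | rfl <;> rcases hN b hb with rfl | rfl
        · exact hirr _ hab
        · exact hYY hab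
        · exact hYY (hsym _ _ hab)
        · exact hirr _ hab
      intro a b c hab hbc hac
      by_cases haz : a = z
      · subst haz
        exact hzz b c (hsym _ _ hab) (hsym _ _ hac) hbc
      by_cases hbz : b = z
      · subst hbz
        exact hzz a c hab (hsym _ _ hbc) hac
      by_cases hcz : c = z
      · subst hcz
        exact hzz a b hac hbc hab
      exact gadj_triangle (hE a b haz hbz hab) (hE b c hbz hcz hbc) (hE a c haz hcz hac)
    · rw [g_le_iff]
      refine ⟨Finset.subset_union_left, fun a ha b hb => ?_⟩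
      rw [gadj_mkG]
      constructor
      · rintro ⟨-, -, h | h⟩
        · exact h
        · have ha' := hdF (show a ∈ S₁.dom d from ha)
          have hb' := hdF (show b ∈ S₁.dom d from hb)
          rw [hda]
          rcases (hd'a a b).1 h with h1 | h1 | h1
          · exact Or.inl ⟨h1.1, ha', hb'⟩
          · exact absurd (h1.1 ▸ ha') hy'y
          · exact absurd (h1.2 ▸ hb') hy'y
      · intro h
        exact ⟨Finset.mem_union_left _ ha, Finset.mem_union_left _ hb, Or.inl h⟩
    · rw [g_le_iff]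
      refine ⟨Finset.subset_union_right, fun a ha b hb => ?_⟩
      rw [gadj_mkG]
      constructor
      · rintro ⟨-, -, h | h⟩
        · have ha' := hd'F (show a ∈ S₁.dom d' from ha)
          have hb' := hd'F (show b ∈ S₁.dom d' from hb)
          rw [hd'a]
          rcases (hda a b).1 h with h1 | h1 | h1
          · exact Or.inl ⟨h1.1, ha', hb'⟩
          · exact absurd (h1.1 ▸ ha') hyy'
          · exact absurd (h1.2 ▸ hb') hyy'
        · exact h
      · intro h
        exact ⟨Finset.mem_union_right _ ha, Finset.mem_union_right _ hb, Or.inr h⟩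
  -- transfer to the unary forcing
  obtain ⟨q, hq⟩ := iso_nonempty φ (U := RO.gen g) ⟨g, RO.mem_gen le_rfl⟩
  have hqd : q ∈ (φ (RO.gen d)).1 :=
    φ.monotone (show RO.gen g ≤ RO.gen d from RO.gen_le (RO.mem_gen hgd)) hq
  have hqd' : q ∈ (φ (RO.gen d')).1 :=
    φ.monotone (show RO.gen g ≤ RO.gen d' from RO.gen_le (RO.mem_gen hgd')) hq
  have hq1 : S₀.res (F y) q ∈ (φ (RO.gen d)).1 := hF₁ y d hdF q hqd
  have hq1' : S₀.res (F y') q ∈ (φ (RO.gen d')).1 := hF₁ y' d' hd'F q hqd'
  let q' := S₀.res (F y ∪ F y') q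
  have hq'1 : q' ∈ (φ (RO.gen d)).1 := RO.down _ hq1
    (S₀.res_le (S₀.le_res _ _) ((S₀.res_dom _ _).trans Set.subset_union_left))
  have hq'2 : q' ∈ (φ (RO.gen d')).1 := RO.down _ hq1'
    (S₀.res_le (S₀.le_res _ _) ((S₀.res_dom _ _).trans Set.subset_union_right))
  have hcY : ∀ (w : X) (d : Cohen X KTriangleFree), d ≤ S₁.res (F w) p →
      q' ∈ (φ (RO.gen d)).1 → q' ∈ (RO.gen (S₀.res (F w) p₀)).1 := by
    intro w d hd hq
    have h1 : RO.gen d ≤ φ.symm (RO.gen (S₀.res (F w) p₀)) :=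
      RO.gen_le (RO.down _ (hpY w) hd)
    have h2 := φ.monotone h1
    rw [φ.apply_symm_apply] at h2
    exact h2 hq
  have hc1 := hcY y d hd1 hq'1
  have hc2 := hcY y' d' hd1' hq'2
  have hagree : ∀ x ∈ q'.dom, x ∈ p₀.dom → (uval q' x ↔ uval p₀ x) := by
    intro x hx hxp
    have key : ∀ w, x ∈ F w → q' ∈ (RO.gen (S₀.res (F w) p₀)).1 →
        (uval q' x ↔ uval p₀ x) := by
      intro w hxw hw
      obtain ⟨s, hs1, hs2⟩ := hw q' le_rfl
      have hxr : x ∈ (S₀.res (F w) p₀).dom := Finset.mem_filter.2 ⟨hxp, hxw⟩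
      rw [← (u_le_iff.1 hs1).2 x hx, (u_le_iff.1 hs2).2 x hxr,
        ← (u_le_iff.1 (S₀.le_res (F w) p₀)).2 x hxr]
    rcases S₀.res_dom (F y ∪ F y') q (show x ∈ S₀.dom q' from hx) with h | h
    · exact key y h hc1
    · exact key y' h hc2
  obtain ⟨s, hs1, hs2⟩ : ∃ s : Cohen X KUnary, s ≤ p₀ ∧ s ≤ q' := by
    refine Cohen.amalg strongFraisse_unary
      (p₀.restrict strongFraisse_unary (p₀.dom ∩ q'.dom) Finset.inter_subset_left) q' p₀ ?_
      (Cohen.le_restrict _ _ _ _) ?_
    · rw [u_le_iff]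
      refine ⟨Finset.inter_subset_right, fun a ha => ?_⟩
      have ha' : a ∈ p₀.dom ∩ q'.dom := ha
      rw [Finset.mem_inter] at ha'
      rw [hagree a ha'.2 ha'.1]
      exact (u_le_iff.1 (Cohen.le_restrict strongFraisse_unary p₀ (p₀.dom ∩ q'.dom)
        Finset.inter_subset_left)).2 a ha
    · intro x hx hx'
      exact Finset.mem_inter.2 ⟨hx', hx⟩
  have hsd : s ∈ (φ (RO.gen d)).1 := RO.down _ hq'1 hs2
  have hsd' : s ∈ (φ (RO.gen d')).1 := RO.down _ hq'2 hs2
  have hse : s ∈ (φ (RO.gen e)).1 := RO.down _ hp₀ hs1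
  obtain ⟨v, hv⟩ := iso_nonempty φ.symm (U := RO.gen s) ⟨s, RO.mem_gen le_rfl⟩
  have hv' : ∀ c : Cohen X KTriangleFree, s ∈ (φ (RO.gen c)).1 → v ∈ (RO.gen c).1 := by
    intro c hc
    have h1 := φ.symm.monotone (RO.gen_le hc)
    rw [φ.symm_apply_apply] at h1
    exact h1 hv
  obtain ⟨v1, hv1, hv1d⟩ := hv' d hsd v le_rfl
  obtain ⟨v2, hv2, hv2d⟩ := hv' d' hsd' v1 hv1
  obtain ⟨v3, hv3, hv3e⟩ := hv' e hse v2 (hv2.trans hv1)
  have hv3d := (hv3.trans hv2).trans hv1d
  have hv3d' := hv3.trans hv2d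
  have hA1 : gadj v3 y z := by
    rw [(g_le_iff.1 hv3d).2 y (by simp [hdd]) z (by simp [hdd]), hda]
    exact Or.inr (Or.inl ⟨rfl, rfl⟩)
  have hA2 : gadj v3 z y' := by
    rw [(g_le_iff.1 hv3d').2 z (by simp [hd'd]) y' (by simp [hd'd]), hd'a]
    exact Or.inr (Or.inr ⟨rfl, rfl⟩)
  have hy1 : y ∈ ({y, y'} : Finset X) := by simp
  have hy2 : y' ∈ ({y, y'} : Finset X) := by simp
  have hA3 : gadj v3 y y' := by
    rw [(g_le_iff.1 hv3e).2 y hy1 y' hy2, gadj_mkG]
    exact ⟨hy1, hy2, Or.inl ⟨rfl, rfl⟩⟩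
  exact gadj_triangle hA1 hA2 hA3

/-- Cohen forcings of non-trivial strong Fraisse classes need not be forcing equivalent: in
relational languages with one relation symbol, the class of finite triangle-free graphs and the
class of all finite sets with a distinguished subset (whose Cohen forcing is ordinary Cohen
forcing) give non-equivalent Cohen forcings on every set `X` of size at least `ℵ₂`. -/
theorem result :
    (IsStrongFraisse KUnary ∧ ¬ IsTrivialClass KUnary ∧ AtMostTypes KUnary ℵ₀) ∧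
    (IsStrongFraisse KTriangleFree ∧ ¬ IsTrivialClass KTriangleFree ∧
      AtMostTypes KTriangleFree ℵ₀) ∧
    ∀ X : Type, ℵ_ 2 ≤ #X →
      ¬ ForcingEquivalent (Cohen X KUnary) (Cohen X KTriangleFree) :=
  ⟨⟨strongFraisse_unary, not_trivial_unary, types_unary⟩,
    ⟨strongFraisse_triangleFree, not_trivial_triangleFree, types_triangleFree⟩,
    fun _ hX => main hX⟩

end Pool.Agent.Results.MP_01c350_lc.TriangleFreeNotCohen
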